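import Mathlib
import Pool.Agent.Helper68.BorsukSum

namespace Pool.Agent.Results.MP_12cbfc_co.SumFormula

open Pool.Agent.Helper68.Borsuk

set_option linter.unusedSectionVars false
set_option linter.deprecated false

/-- The diameter of the set of bases of `M` for the distance `|B ∆ B'|`. -/
noncomputable def baseDiam {α : Type*} (M : Matroid α) : ℕ :=
  sSup {d : ℕ | ∃ B B' : Set α, M.IsBase B ∧ M.IsBase B' ∧ d = (symmDiff B B').ncard}

/-- The bases of `M` can be partitioned into `k` (possibly empty) parts such that any two bases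
in a same part are at distance smaller than the diameter. -/
def HasPartition {α : Type*} (M : Matroid α) (k : ℕ) : Prop :=
  ∃ φ : {B : Set α // M.IsBase B} → Fin k,
    ∀ B B', φ B = φ B' → (symmDiff B.1 B'.1).ncard < baseDiam M

/-- The Borsuk number of `M`, an element of `ℕ ∪ {∞}`. -/
noncomputable def borsuk {α : Type*} (M : Matroid α) : ℕ∞ :=
  sInf {x : ℕ∞ | ∃ k : ℕ, x = k ∧ HasPartition M k}

section transfer

variable {α : Type*} (M : Matroid α) [M.Finite]

/-- the ground set as a finite type -/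
@[reducible] noncomputable def groundFintype : Fintype M.E := M.ground_finite.fintype

attribute [local instance] groundFintype Classical.propDecidable

/-- the set of elements of `α` given by a finset of the ground type -/
def toS (X : Finset M.E) : Set α := Subtype.val '' (X : Set M.E)

/-- the finset of the ground type given by a set -/
noncomputable def toF (B : Set α) : Finset M.E := Finset.univ.filter (fun e => e.1 ∈ B)

/-- the rank function on finsets of the ground type -/
noncomputable def rkF (X : Finset M.E) : ℕ := (M.eRk (toS M X)).toNat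

lemma toS_finite (X : Finset M.E) : (toS M X).Finite := X.finite_toSet.image _

lemma encard_toS (X : Finset M.E) : (toS M X).encard = X.card := by
  unfold toS
  rw [Subtype.val_injective.encard_image, Set.encard_coe_eq_coe_finsetCard]

lemma coe_rkF (X : Finset M.E) : (rkF M X : ℕ∞) = M.eRk (toS M X) := by
  unfold rkF
  apply ENat.coe_toNat
  have h1 := M.eRk_le_encard (toS M X)
  rw [encard_toS] at h1
  exact ne_top_of_le_ne_top (ENat.coe_ne_top _) h1

lemma toS_union (X Y : Finset M.E) : toS M (X ∪ Y) = toS M X ∪ toS M Y := by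
  unfold toS
  rw [Finset.coe_union, Set.image_union]

lemma toS_inter (X Y : Finset M.E) : toS M (X ∩ Y) = toS M X ∩ toS M Y := by
  unfold toS
  rw [Finset.coe_inter, Set.image_inter Subtype.val_injective]

lemma isRank_rkF : IsRank (rkF M) := by
  refine ⟨?_, ?_, ?_, ?_⟩
  · have h := coe_rkF M ∅
    have h2 : toS M (∅ : Finset M.E) = ∅ := by simp [toS]
    rw [h2, Matroid.eRk_empty] at h
    exact_mod_cast h
  · intro A B hAB
    have h1 : toS M A ⊆ toS M B := Set.image_mono (by exact_mod_cast hAB)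
    have h2 := M.eRk_mono h1
    rw [← coe_rkF, ← coe_rkF] at h2
    exact_mod_cast h2
  · intro A e
    have h1 := M.eRk_insert_le_add_one e.1 (toS M A)
    have h2 : toS M (insert e A) = insert e.1 (toS M A) := by
      unfold toS
      rw [Finset.coe_insert, Set.image_insert_eq]
    rw [← h2, ← coe_rkF, ← coe_rkF] at h1
    exact_mod_cast h1
  · intro A B
    have h1 := M.eRk_inter_add_eRk_union_le (toS M A) (toS M B)
    rw [← toS_union, ← toS_inter, ← coe_rkF, ← coe_rkF, ← coe_rkF, ← coe_rkF] at h1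
    have h2 : rkF M (A ∩ B) + rkF M (A ∪ B) ≤ rkF M A + rkF M B := by exact_mod_cast h1
    omega

lemma toS_univ : toS M (Finset.univ : Finset M.E) = M.E := by
  simp [toS]

lemma toS_toF {B : Set α} (hB : B ⊆ M.E) : toS M (toF M B) = B := by
  ext x
  simp only [toS, toF, Finset.coe_filter, Finset.mem_univ, true_and, Set.mem_image,
    Set.mem_setOf_eq, Subtype.exists, exists_and_left, exists_prop, exists_eq_right_right]
  constructor
  · exact fun h => h.1
  · exact fun h => ⟨h, hB h⟩

lemma toF_toS (X : Finset M.E) : toF M (toS M X) = X := by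
  ext x
  simp [toS, toF]

lemma base_toF {B : Set α} (hB : M.IsBase B) : Base (rkF M) (toF M B) := by
  have h0 := hB.subset_ground
  have h1 := coe_rkF M (toF M B)
  rw [toS_toF M h0, hB.eRk_eq_eRank] at h1
  have h2 := coe_rkF M Finset.univ
  rw [toS_univ, Matroid.eRk_ground] at h2
  have h3 := encard_toS M (toF M B)
  rw [toS_toF M h0, hB.encard_eq_eRank] at h3
  constructor
  · rw [← h2] at h1
    exact_mod_cast h1
  · rw [← h2] at h3
    exact_mod_cast h3.symm

lemma isBase_toS {X : Finset M.E} (hX : Base (rkF M) X) : M.IsBase (toS M X) := by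
  have h2 := coe_rkF M Finset.univ
  rw [toS_univ, Matroid.eRk_ground] at h2
  have h3 := coe_rkF M X
  have h4 : M.Indep (toS M X) := by
    rw [Matroid.indep_iff_eRk_eq_encard_of_finite (toS_finite M X), encard_toS, ← h3, hX.1, hX.2]
  refine h4.isBase_of_eRk_ge (toS_finite M X) ?_
  rw [← h3, ← h2, hX.1]

lemma ncard_toS (X : Finset M.E) : (toS M X).ncard = X.card := by
  rw [Set.ncard_def, encard_toS]
  rfl

lemma symmDiff_ncard_finset (X Y : Finset M.E) (h : X.card = Y.card) :
    (symmDiff (toS M X) (toS M Y)).ncard = 2 * (X \ Y).card := by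
  have e1 : symmDiff (toS M X) (toS M Y) = toS M (X \ Y) ∪ toS M (Y \ X) := by
    unfold toS
    rw [Set.symmDiff_def, ← Set.image_sdiff Subtype.val_injective,
      ← Set.image_sdiff Subtype.val_injective, Finset.coe_sdiff, Finset.coe_sdiff]
  have e2 : Disjoint (X \ Y) (Y \ X) := by
    rw [Finset.disjoint_left]
    intro a ha hb
    rw [Finset.mem_sdiff] at ha hb
    exact ha.2 hb.1
  rw [e1, ← toS_union, ncard_toS, Finset.card_union_of_disjoint e2]
  have h1 := Finset.card_sdiff_add_card_inter X Y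
  have h2 := Finset.card_sdiff_add_card_inter Y X
  rw [Finset.inter_comm] at h2
  omega

lemma exists_minimizer : ∃ S : Finset M.E, ∀ A : Finset M.E,
    Sᶜ.card + 2 * rkF M S ≤ Aᶜ.card + 2 * rkF M A := by
  obtain ⟨S, _, hS⟩ := Finset.exists_min_image (Finset.univ : Finset (Finset M.E))
    (fun A => Aᶜ.card + 2 * rkF M A) ⟨∅, Finset.mem_univ _⟩
  exact ⟨S, fun A => hS A (Finset.mem_univ _)⟩

lemma dist_eq {B B' : Set α} (hB : M.IsBase B) (hB' : M.IsBase B') :
    (symmDiff B B').ncard = 2 * (toF M B \ toF M B').card := by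
  have h1 := base_toF M hB
  have h2 := base_toF M hB'
  have h3 := symmDiff_ncard_finset M (toF M B) (toF M B') (by rw [h1.2, h2.2])
  rwa [toS_toF M hB.subset_ground, toS_toF M hB'.subset_ground] at h3

lemma diam_bdd : BddAbove {d : ℕ | ∃ B B' : Set α, M.IsBase B ∧ M.IsBase B' ∧
    d = (symmDiff B B').ncard} := by
  refine ⟨M.E.ncard, ?_⟩
  rintro d ⟨B, B', hB, hB', rfl⟩
  apply Set.ncard_le_ncard _ M.ground_finite
  rintro x (hx | hx)
  · exact hB.subset_ground hx.1
  · exact hB'.subset_ground hx.1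

omit [M.Finite] in
lemma diam_nonempty : {d : ℕ | ∃ B B' : Set α, M.IsBase B ∧ M.IsBase B' ∧
    d = (symmDiff B B').ncard}.Nonempty := by
  obtain ⟨B, hB⟩ := M.exists_isBase
  exact ⟨_, B, B, hB, hB, rfl⟩

lemma le_diam {B B' : Set α} (hB : M.IsBase B) (hB' : M.IsBase B') :
    (symmDiff B B').ncard ≤ baseDiam M :=
  le_csSup (diam_bdd M) ⟨B, B', hB, hB', rfl⟩

lemma diam_attained : ∃ B B' : Set α, M.IsBase B ∧ M.IsBase B' ∧
    baseDiam M = (symmDiff B B').ncard :=
  Nat.sSup_mem (diam_nonempty M) (diam_bdd M)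

lemma diam_eq (S : Finset M.E) (hS : ∀ A : Finset M.E,
    Sᶜ.card + 2 * rkF M S ≤ Aᶜ.card + 2 * rkF M A) :
    baseDiam M = 2 * twR (rkF M) S Finset.univ := by
  have hr := isRank_rkF M
  apply le_antisymm
  · obtain ⟨B, B', hB, hB', h⟩ := diam_attained M
    rw [h, dist_eq M hB hB']
    have := (sdiff_le hr S (base_toF M hB) (base_toF M hB')).1
    omega
  · rcases Nat.eq_zero_or_pos (twR (rkF M) S Finset.univ) with h0 | hpos
    · rw [h0]
      exact Nat.zero_le _
    · obtain ⟨X, Y, hX, hY, hXY, -⟩ := lower_bound (isRank_twR hr S) hpos 0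
        (fun F _ _ => by have := twR_min hr S hS F; omega) (fun _ => 0) (fun _ _ => le_rfl)
      have h1 := base_psi hr S hX
      have h2 := base_psi hr S hY
      have h3 := le_diam M (isBase_toS M h1.1) (isBase_toS M h2.1)
      rw [symmDiff_ncard_finset M _ _ (by rw [h1.1.2, h2.1.2]), card_sdiff_psi hr S hX hY hXY] at h3
      exact h3

lemma hasPartition_of_le (S : Finset M.E) (hS : ∀ A : Finset M.E,
    Sᶜ.card + 2 * rkF M S ≤ Aᶜ.card + 2 * rkF M A) (F : Finset M.E)
    (hF : twR (rkF M) S F < twR (rkF M) S Finset.univ) (n : ℕ)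
    (hn : Fᶜ.card + 2 * twR (rkF M) S F + 2 ≤ n + 2 * twR (rkF M) S Finset.univ) :
    HasPartition M n := by
  obtain ⟨κ, h1, h2⟩ := upper_bound (isRank_rkF M) S hS F hF n hn
  refine ⟨fun B => ⟨κ (toF M B.1), h1 _⟩, ?_⟩
  intro B B' h
  have h3 : κ (toF M B.1) = κ (toF M B'.1) := congrArg Fin.val h
  have h4 := h2 _ _ (base_toF M B.2) (base_toF M B'.2) h3
  rw [dist_eq M B.2 B'.2, diam_eq M S hS]
  omega

end transfer

section sums

variable {α β : Type*} (M : Matroid α) (N : Matroid β) [M.Finite] [N.Finite]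

attribute [local instance] groundFintype Classical.propDecidable

lemma ncard_sum {α β : Type*} (T : Set (α ⊕ β)) (h1 : (Sum.inl ⁻¹' T : Set α).Finite)
    (h2 : (Sum.inr ⁻¹' T : Set β).Finite) :
    T.ncard = (Sum.inl ⁻¹' T : Set α).ncard + (Sum.inr ⁻¹' T : Set β).ncard := by
  have e1 : T = Sum.inl '' (Sum.inl ⁻¹' T : Set α) ∪ Sum.inr '' (Sum.inr ⁻¹' T : Set β) := by
    ext x
    cases x <;> simp
  conv_lhs => rw [e1]
  rw [Set.ncard_union_eq _ (h1.image _) (h2.image _), Set.ncard_image_of_injective _ Sum.inl_injective,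
    Set.ncard_image_of_injective _ Sum.inr_injective]
  rw [Set.disjoint_left]
  rintro x ⟨a, _, rfl⟩ ⟨b, _, hb⟩
  exact absurd hb (by simp)

lemma dist_sum {B C : Set (α ⊕ β)} (hB : (M.sum N).IsBase B) (hC : (M.sum N).IsBase C) :
    (symmDiff B C).ncard = (symmDiff (Sum.inl ⁻¹' B : Set α) (Sum.inl ⁻¹' C)).ncard +
      (symmDiff (Sum.inr ⁻¹' B : Set β) (Sum.inr ⁻¹' C)).ncard := by
  rw [Matroid.sum_isBase_iff] at hB hC
  have e1 : (Sum.inl ⁻¹' (symmDiff B C) : Set α)
      = symmDiff (Sum.inl ⁻¹' B : Set α) (Sum.inl ⁻¹' C) := by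
    ext x; simp [Set.mem_symmDiff]
  have e2 : (Sum.inr ⁻¹' (symmDiff B C) : Set β)
      = symmDiff (Sum.inr ⁻¹' B : Set β) (Sum.inr ⁻¹' C) := by
    ext x; simp [Set.mem_symmDiff]
  rw [ncard_sum, e1, e2]
  · rw [e1]
    apply M.ground_finite.subset
    rintro x (hx | hx)
    · exact hB.1.subset_ground hx.1
    · exact hC.1.subset_ground hx.1
  · rw [e2]
    apply N.ground_finite.subset
    rintro x (hx | hx)
    · exact hB.2.subset_ground hx.1
    · exact hC.2.subset_ground hx.1

/-- a set of the sum type with prescribed traces -/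
def both {α β : Type*} (A : Set α) (B : Set β) : Set (α ⊕ β) := Sum.inl '' A ∪ Sum.inr '' B

lemma both_left {α β : Type*} (A : Set α) (B : Set β) : Sum.inl ⁻¹' (both A B) = A := by
  ext x; simp [both]

lemma both_right {α β : Type*} (A : Set α) (B : Set β) : Sum.inr ⁻¹' (both A B) = B := by
  ext x; simp [both]

lemma diam_sum : baseDiam (M.sum N) = baseDiam M + baseDiam N := by
  apply le_antisymm
  · apply csSup_le (diam_nonempty _)
    rintro d ⟨B, C, hB, hC, rfl⟩
    rw [dist_sum M N hB hC]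
    rw [Matroid.sum_isBase_iff] at hB hC
    exact Nat.add_le_add (le_diam M hB.1 hC.1) (le_diam N hB.2 hC.2)
  · obtain ⟨B, C, hB, hC, h⟩ := diam_attained M
    obtain ⟨B', C', hB', hC', h'⟩ := diam_attained N
    have h1 : (M.sum N).IsBase (both B B') := by
      rw [Matroid.sum_isBase_iff, both_left, both_right]
      exact ⟨hB, hB'⟩
    have h2 : (M.sum N).IsBase (both C C') := by
      rw [Matroid.sum_isBase_iff, both_left, both_right]
      exact ⟨hC, hC'⟩
    have h3 := dist_sum M N h1 h2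
    rw [both_left, both_left, both_right, both_right, ← h, ← h'] at h3
    rw [← h3]
    refine le_csSup ⟨baseDiam M + baseDiam N, ?_⟩ ⟨_, _, h1, h2, rfl⟩
    rintro d ⟨B, C, hB, hC, rfl⟩
    rw [dist_sum M N hB hC]
    rw [Matroid.sum_isBase_iff] at hB hC
    exact Nat.add_le_add (le_diam M hB.1 hC.1) (le_diam N hB.2 hC.2)

lemma partition_left {k : ℕ} (h : HasPartition M k) : HasPartition (M.sum N) k := by
  obtain ⟨φ, hφ⟩ := h
  refine ⟨fun B => φ ⟨Sum.inl ⁻¹' B.1, (Matroid.sum_isBase_iff.1 B.2).1⟩, ?_⟩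
  intro B C hBC
  have h1 := hφ _ _ hBC
  have h2 := le_diam N (Matroid.sum_isBase_iff.1 B.2).2 (Matroid.sum_isBase_iff.1 C.2).2
  rw [dist_sum M N B.2 C.2, diam_sum]
  simp only at h1
  omega

lemma partition_right {k : ℕ} (h : HasPartition N k) : HasPartition (M.sum N) k := by
  obtain ⟨φ, hφ⟩ := h
  refine ⟨fun B => φ ⟨Sum.inr ⁻¹' B.1, (Matroid.sum_isBase_iff.1 B.2).2⟩, ?_⟩
  intro B C hBC
  have h1 := hφ _ _ hBC
  have h2 := le_diam M (Matroid.sum_isBase_iff.1 B.2).1 (Matroid.sum_isBase_iff.1 C.2).1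
  rw [dist_sum M N B.2 C.2, diam_sum]
  simp only at h1
  omega

lemma partition_sum {n : ℕ} (h : HasPartition (M.sum N) n) :
    HasPartition M n ∨ HasPartition N n := by
  by_contra hcon
  rw [not_or] at hcon
  obtain ⟨hM, hN⟩ := hcon
  obtain ⟨φ, hφ⟩ := h
  obtain ⟨S, hS⟩ := exists_minimizer M
  obtain ⟨S', hS'⟩ := exists_minimizer N
  have hd := diam_eq M S hS
  have hd' := diam_eq N S' hS'
  obtain ⟨B₀, hB₀⟩ := (M.sum N).exists_isBase
  have hn : 0 < n := lt_of_le_of_lt (Nat.zero_le _) (φ ⟨B₀, hB₀⟩).isLt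
  have hpos : 0 < baseDiam (M.sum N) :=
    lt_of_le_of_lt (Nat.zero_le _) (hφ ⟨B₀, hB₀⟩ ⟨B₀, hB₀⟩ rfl)
  have hr := isRank_rkF M
  have hr' := isRank_rkF N
  have hds := diam_sum M N
  set toSum : Finset (M.E ⊕ N.E) → Set (α ⊕ β) := fun X =>
    both (toS M (psi S X.toLeft)) (toS N (psi S' X.toRight)) with htoSum
  have hbase : ∀ X, Base (sumR (twR (rkF M) S) (twR (rkF N) S')) X →
      (M.sum N).IsBase (toSum X) := by
    intro X hX
    have h1 := base_sumR (isRank_twR hr S) (isRank_twR hr' S') hX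
    rw [Matroid.sum_isBase_iff, htoSum]
    simp only [both_left, both_right]
    exact ⟨isBase_toS M (base_psi hr S h1.1).1, isBase_toS N (base_psi hr' S' h1.2).1⟩
  obtain ⟨X, Y, hX, hY, hXY, hκ⟩ := sum_lower (isRank_twR hr S) (isRank_twR hr' S') (n - 1)
    (by omega) (twR_min hr S hS) (twR_min hr' S' hS')
    (by
      intro F hF
      by_contra hlt
      exact hM (hasPartition_of_le M S hS F hF n (by omega)))
    (by
      intro F hF
      by_contra hlt
      exact hN (hasPartition_of_le N S' hS' F hF n (by omega)))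
    (fun X => if h : (M.sum N).IsBase (toSum X) then (φ ⟨toSum X, h⟩ : ℕ) else 0)
    (by
      intro X hX
      rw [dif_pos (hbase X hX)]
      have := (φ ⟨toSum X, hbase X hX⟩).isLt
      omega)
  rw [dif_pos (hbase X hX), dif_pos (hbase Y hY)] at hκ
  have h1 := hφ _ _ (Fin.ext hκ)
  simp only at h1
  rw [dist_sum M N (hbase X hX) (hbase Y hY), hds] at h1
  have hbX := base_sumR (isRank_twR hr S) (isRank_twR hr' S') hX
  have hbY := base_sumR (isRank_twR hr S) (isRank_twR hr' S') hY
  have e1 : (Sum.inl ⁻¹' (toSum X) : Set α) = toS M (psi S X.toLeft) := both_left _ _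
  have e2 : (Sum.inl ⁻¹' (toSum Y) : Set α) = toS M (psi S Y.toLeft) := both_left _ _
  have e3 : (Sum.inr ⁻¹' (toSum X) : Set β) = toS N (psi S' X.toRight) := both_right _ _
  have e4 : (Sum.inr ⁻¹' (toSum Y) : Set β) = toS N (psi S' Y.toRight) := both_right _ _
  have hdl : Disjoint X.toLeft Y.toLeft := by
    rw [Finset.disjoint_left] at hXY ⊢
    intro a ha hb
    rw [Finset.mem_toLeft] at ha hb
    exact hXY ha hb
  have hdr : Disjoint X.toRight Y.toRight := by
    rw [Finset.disjoint_left] at hXY ⊢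
    intro a ha hb
    rw [Finset.mem_toRight] at ha hb
    exact hXY ha hb
  rw [e1, e2, e3, e4,
    symmDiff_ncard_finset M _ _ (by
      rw [(base_psi hr S hbX.1).1.2, (base_psi hr S hbY.1).1.2]),
    symmDiff_ncard_finset N _ _ (by
      rw [(base_psi hr' S' hbX.2).1.2, (base_psi hr' S' hbY.2).1.2]),
    card_sdiff_psi hr S hbX.1 hbY.1 hdl, card_sdiff_psi hr' S' hbX.2 hbY.2 hdr] at h1
  omega

end sums

/-- The Borsuk number of a direct sum of two finite matroids is the minimum of the two Borsuk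
numbers. -/
theorem result {α β : Type*} (M : Matroid α) (N : Matroid β) [M.Finite] [N.Finite] :
    borsuk (M.sum N) = min (borsuk M) (borsuk N) := by
  apply le_antisymm
  · apply le_min
    · apply le_sInf
      rintro x ⟨k, rfl, hk⟩
      exact sInf_le ⟨k, rfl, partition_left M N hk⟩
    · apply le_sInf
      rintro x ⟨k, rfl, hk⟩
      exact sInf_le ⟨k, rfl, partition_right M N hk⟩
  · apply le_sInf
    rintro x ⟨k, rfl, hk⟩
    rcases partition_sum M N hk with h | h
    · exact (min_le_left _ _).trans (sInf_le ⟨k, rfl, h⟩)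
    · exact (min_le_right _ _).trans (sInf_le ⟨k, rfl, h⟩)

end Pool.Agent.Results.MP_12cbfc_co.SumFormula
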